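import Pool.Agent.helper64.D2.SpecC

/-!
# Module LW2 of project dc:
-/

set_option autoImplicit false

open Filter Topology
open scoped commutatorElement

namespace Pool.Agent.helper64.D2

/-- Bounded and Lipschitz with the same constant. -/
def LW2_BL (f : ℝ → ℝ) (a : ℝ) : Prop := (∀ x, |f x| ≤ a) ∧ ∀ x y, |f x - f y| ≤ a * |x - y|

theorem LW2_BL_nn {f : ℝ → ℝ} {a : ℝ} (hf : LW2_BL f a) : 0 ≤ a := (abs_nonneg _).trans (hf.1 0)

theorem LW2_BL_mul {f g : ℝ → ℝ} {a b : ℝ} (hf : LW2_BL f a) (hg : LW2_BL g b) :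
    LW2_BL (fun x => f x * g x) (2 * a * b) := by
  have ha : 0 ≤ a := LW2_BL_nn hf
  have hb : 0 ≤ b := LW2_BL_nn hg
  constructor
  · intro x
    rw [abs_mul]
    have h1 := mul_le_mul (hf.1 x) (hg.1 x) (abs_nonneg _) ha
    nlinarith [mul_nonneg ha hb]
  · intro x y
    have e : f x * g x - f y * g y = f x * (g x - g y) + (f x - f y) * g y := by ring
    show |f x * g x - f y * g y| ≤ _
    rw [e]
    calc |f x * (g x - g y) + (f x - f y) * g y| ≤ |f x * (g x - g y)| + |(f x - f y) * g y| := abs_add_le _ _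
      _ = |f x| * |g x - g y| + |f x - f y| * |g y| := by rw [abs_mul, abs_mul]
      _ ≤ a * (b * |x - y|) + (a * |x - y|) * b := by
          apply add_le_add
          · exact mul_le_mul (hf.1 x) (hg.2 x y) (abs_nonneg _) ha
          · exact mul_le_mul (hf.2 x y) (hg.1 y) (abs_nonneg _) (by positivity)
      _ = 2 * a * b * |x - y| := by ring

theorem LW2_BL_sub {f g : ℝ → ℝ} {a b : ℝ} (hf : LW2_BL f a) (hg : LW2_BL g b) :
    LW2_BL (fun x => f x - g x) (a + b) := by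
  constructor
  · intro x
    show |f x - g x| ≤ _
    have h1 := abs_le.1 (hf.1 x)
    have h2 := abs_le.1 (hg.1 x)
    rw [abs_le]
    constructor <;> linarith [h1.1, h1.2, h2.1, h2.2]
  · intro x y
    show |(f x - g x) - (f y - g y)| ≤ _
    have h1 := abs_le.1 (hf.2 x y)
    have h2 := abs_le.1 (hg.2 x y)
    rw [abs_le]
    constructor <;> nlinarith [h1.1, h1.2, h2.1, h2.2]

theorem LW2_BL_mono {f : ℝ → ℝ} {a b : ℝ} (hf : LW2_BL f a) (hab : a ≤ b) : LW2_BL f b :=
  ⟨fun x => (hf.1 x).trans hab, fun x y => (hf.2 x y).trans (mul_le_mul_of_nonneg_right hab (abs_nonneg _))⟩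

theorem LW2_lip {f f' : ℝ → ℝ} {a : ℝ} (hd : ∀ x, HasDerivAt f (f' x) x) (hb : ∀ x, |f' x| ≤ a) (x y : ℝ) :
    |f x - f y| ≤ a * |x - y| := by
  have h := Convex.norm_image_sub_le_of_norm_hasDerivWithin_le (f := f) (f' := f') (s := Set.univ) (C := a)
    (x := y) (y := x) (fun z _ => (hd z).hasDerivWithinAt) (fun z _ => by rw [Real.norm_eq_abs]; exact hb z) convex_univ
    (Set.mem_univ _) (Set.mem_univ _)
  simpa [Real.norm_eq_abs] using h

theorem LW2_taylor {f f' f'' : ℝ → ℝ} {M : ℝ} (hd : ∀ x, HasDerivAt f (f' x) x) (hd' : ∀ x, HasDerivAt f' (f'' x) x)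
    (hb : ∀ x, |f'' x| ≤ M) (a b : ℝ) : |f a - f b - (a - b) * f' b| ≤ M * (a - b) ^ 2 := by
  have hM : 0 ≤ M := (abs_nonneg _).trans (hb 0)
  have hg : ∀ x, HasDerivAt (fun x => f x - x * f' b) (f' x - f' b) x := by
    intro x
    have := (hd x).sub ((hasDerivAt_id x).mul_const (f' b))
    rw [one_mul] at this
    exact this
  have h := Convex.norm_image_sub_le_of_norm_hasDerivWithin_le (f := fun x => f x - x * f' b) (f' := fun x => f' x - f' b)
    (s := Set.uIcc b a) (C := M * |a - b|)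
    (x := b) (y := a) (fun z _ => (hg z).hasDerivWithinAt) (fun z hz => by
      rw [Real.norm_eq_abs]
      refine (LW2_lip hd' hb z b).trans ?_
      apply mul_le_mul_of_nonneg_left _ hM
      have := Set.abs_sub_left_of_mem_uIcc hz
      exact this) (convex_uIcc _ _)
    Set.left_mem_uIcc Set.right_mem_uIcc
  rw [Real.norm_eq_abs, Real.norm_eq_abs] at h
  have e : f a - a * f' b - (f b - b * f' b) = f a - f b - (a - b) * f' b := by ring
  rw [e] at h
  refine h.trans (le_of_eq ?_)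
  rw [mul_assoc, ← sq, sq_abs]

/-- The bump function. -/
theorem LW2_kap : ∃ κ : ℝ → ℝ, ContDiff ℝ ((⊤ : ℕ∞) : WithTop ℕ∞) κ ∧
    (∀ x, x ∉ Set.Icc (42 / 100 : ℝ) (48 / 100) → κ x = 0) ∧ (∫ x, κ x) = 1 := by
  let f : ContDiffBump (45 / 100 : ℝ) := ⟨1 / 100, 3 / 100, by norm_num, by norm_num⟩
  have hf : f.rOut = 3 / 100 := rfl
  refine ⟨f.normed MeasureTheory.volume, f.contDiff_normed, ?_, f.integral_normed⟩
  intro x hx
  by_contra h
  have h1 : x ∈ Function.support (f.normed MeasureTheory.volume) := h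
  rw [f.support_normed_eq, Metric.mem_ball, Real.dist_eq, abs_lt, hf] at h1
  apply hx
  constructor <;> linarith [h1.1, h1.2]

/-- The class of smooth functions supported in `[42/100, 48/100]`. -/
def LW2_S (f : ℝ → ℝ) : Prop := ContDiff ℝ ((⊤ : ℕ∞) : WithTop ℕ∞) f ∧ ∀ x, x ∉ Set.Icc (42 / 100 : ℝ) (48 / 100) → f x = 0

theorem LW2_S_hd {f : ℝ → ℝ} (h : LW2_S f) (x : ℝ) : HasDerivAt f (deriv f x) x :=
  ((contDiff_infty_iff_deriv.1 h.1).1 x).hasDerivAt

theorem LW2_S_deriv {f : ℝ → ℝ} (h : LW2_S f) : LW2_S (deriv f) := by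
  refine ⟨(contDiff_infty_iff_deriv.1 h.1).2, fun x hx => ?_⟩
  have h1 : f =ᶠ[𝓝 x] fun _ => (0 : ℝ) := by
    have h2 : (Set.Icc (42 / 100 : ℝ) (48 / 100))ᶜ ∈ 𝓝 x := isClosed_Icc.isOpen_compl.mem_nhds hx
    filter_upwards [h2] with y hy
    exact h.2 y hy
  rw [h1.deriv_eq]
  simp

theorem LW2_S_bdd {f : ℝ → ℝ} (h : LW2_S f) : ∃ M : ℝ, ∀ x, |f x| ≤ M := by
  obtain ⟨M, hM⟩ := (isCompact_Icc (a := (42 / 100 : ℝ)) (b := 48 / 100)).exists_bound_of_continuousOn
    (h.1.continuous.continuousOn)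
  refine ⟨max M 0, fun x => ?_⟩
  by_cases hx : x ∈ Set.Icc (42 / 100 : ℝ) (48 / 100)
  · exact (hM x hx).trans (le_max_left _ _)
  · rw [h.2 x hx, abs_zero]; exact le_max_right _ _

/-- The difference quotients. -/
noncomputable def LW2_D (f : ℝ → ℝ) (c θ : ℝ) (y : ℝ) : ℝ := (c * f (y / (1 + θ)) - f y) / θ

theorem LW2_D_hd {f : ℝ → ℝ} (h : LW2_S f) (c θ y : ℝ) :
    HasDerivAt (LW2_D f c θ) (LW2_D (deriv f) (c / (1 + θ)) θ y) y := by
  have h1 : HasDerivAt (fun z : ℝ => z / (1 + θ)) (1 / (1 + θ)) y := (hasDerivAt_id y).div_const (1 + θ)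
  have h2 : HasDerivAt (fun z : ℝ => f (z / (1 + θ))) (deriv f (y / (1 + θ)) * (1 / (1 + θ))) y :=
    HasDerivAt.comp y (LW2_S_hd h (y / (1 + θ))) h1
  have h3 := ((h2.const_mul c).sub (LW2_S_hd h y)).div_const θ
  have e : (c * (deriv f (y / (1 + θ)) * (1 / (1 + θ))) - deriv f y) / θ = LW2_D (deriv f) (c / (1 + θ)) θ y := by
    unfold LW2_D; ring
  rw [e] at h3
  exact h3

theorem LW2_D_zero {f : ℝ → ℝ} (h : LW2_S f) (c θ y : ℝ) (hθ : 0 < θ) (hθ1 : θ ≤ 1 / 100)
    (hy : y ∉ Set.Icc (4 / 10 : ℝ) (1 / 2)) : LW2_D f c θ y = 0 := by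
  have h0 : (0 : ℝ) < 1 + θ := by linarith
  have h1 : f y = 0 := by
    apply h.2
    intro hc
    apply hy
    constructor <;> linarith [hc.1, hc.2]
  have h2 : f (y / (1 + θ)) = 0 := by
    apply h.2
    intro hc
    apply hy
    have h3 := hc.1
    have h4 := hc.2
    rw [le_div_iff₀ h0] at h3
    rw [div_le_iff₀ h0] at h4
    constructor
    · nlinarith
    · nlinarith
  unfold LW2_D
  rw [h1, h2]; simp

theorem LW2_D_bd {f : ℝ → ℝ} (h : LW2_S f) (c θ M : ℝ) (hθ : 0 < θ) (hθ1 : θ ≤ 1 / 100) (hc : |c - 1| ≤ 2 * θ)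
    (hM : ∀ x, |f x| ≤ M) (hM' : ∀ x, |deriv f x| ≤ M) (y : ℝ) : |LW2_D f c θ y| ≤ 3 * M := by
  have hM0 : 0 ≤ M := (abs_nonneg _).trans (hM 0)
  by_cases hy : y ∈ Set.Icc (4 / 10 : ℝ) (1 / 2)
  · have h0 : (0 : ℝ) < 1 + θ := by linarith
    have h1 : |y / (1 + θ) - y| ≤ θ := by
      have e : y / (1 + θ) - y = - (θ * (y / (1 + θ))) := by field_simp; ring
      rw [e, abs_neg, abs_mul, abs_of_pos hθ]
      have h2 : |y / (1 + θ)| ≤ 1 := by
        rw [abs_of_nonneg (div_nonneg (by linarith [hy.1]) h0.le), div_le_one h0]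
        linarith [hy.2]
      nlinarith [abs_nonneg (y / (1 + θ))]
    have h2 := LW2_lip (LW2_S_hd h) hM' (y / (1 + θ)) y
    have h3 : |c * f (y / (1 + θ)) - f y| ≤ 3 * M * θ := by
      have e : c * f (y / (1 + θ)) - f y = (c - 1) * f (y / (1 + θ)) + (f (y / (1 + θ)) - f y) := by ring
      rw [e]
      calc |(c - 1) * f (y / (1 + θ)) + (f (y / (1 + θ)) - f y)|
          ≤ |(c - 1) * f (y / (1 + θ))| + |f (y / (1 + θ)) - f y| := abs_add_le _ _
        _ = |c - 1| * |f (y / (1 + θ))| + |f (y / (1 + θ)) - f y| := by rw [abs_mul]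
        _ ≤ 2 * θ * M + M * θ := by
            apply add_le_add
            · exact mul_le_mul hc (hM _) (abs_nonneg _) (by linarith)
            · exact h2.trans (mul_le_mul_of_nonneg_left h1 hM0)
        _ = 3 * M * θ := by ring
    unfold LW2_D
    rw [abs_div, abs_of_pos hθ, div_le_iff₀ hθ]
    exact h3
  · rw [LW2_D_zero h c θ y hθ hθ1 hy, abs_zero]
    positivity

/-- Comparison of the second difference quotient with its limit. -/
theorem LW2_D_lim {f : ℝ → ℝ} (h : LW2_S f) (θ M : ℝ) (hθ : 0 < θ) (hθ1 : θ ≤ 1 / 100)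
    (hM : ∀ x, |f x| ≤ M) (hM' : ∀ x, |deriv f x| ≤ M) (hM'' : ∀ x, |deriv (deriv f) x| ≤ M) (y : ℝ) :
    |LW2_D f (1 / (1 + θ)) θ y - (- f y - y * deriv f y)| ≤ 4 * M * θ := by
  have hM0 : 0 ≤ M := (abs_nonneg _).trans (hM 0)
  have h0 : (0 : ℝ) < 1 + θ := by linarith
  by_cases hy : y ∈ Set.Icc (4 / 10 : ℝ) (1 / 2)
  · set s : ℝ := 1 / (1 + θ) with hs
    have hs1 : s * (1 + θ) = 1 := by rw [hs]; field_simp
    have hs0 : 0 < s := by positivity
    have hs2 : s ≤ 1 := by rw [hs, div_le_one h0]; linarith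
    have ey : y / (1 + θ) = s * y := by rw [hs]; ring
    have h3 := LW2_taylor (LW2_S_hd h) (LW2_S_hd (LW2_S_deriv h)) hM'' (y / (1 + θ)) y
    rw [ey] at h3
    have e1 : s * y - y = - (θ * s * y) := by
      have : s = 1 - θ * s := by linarith
      calc s * y - y = (s - 1) * y := by ring
        _ = (1 - θ * s - 1) * y := by rw [← this]
        _ = _ := by ring
    rw [e1] at h3
    -- numerator
    have e2 : LW2_D f s θ y - (- f y - y * deriv f y)
        = (s * (f (s * y) - f y - -(θ * s * y) * deriv f y)) / θ + (1 - s) * f y + (1 - s ^ 2) * (y * deriv f y) := by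
      unfold LW2_D
      rw [ey]
      have e3 : s - 1 = - (θ * s) := by linarith
      field_simp
      have e4 : s = 1 - θ * s := by linarith
      linear_combination (f y) * e3
    rw [e2]
    have hy1 : |y| ≤ 1 := by rw [abs_of_nonneg (by linarith [hy.1])]; linarith [hy.2]
    have h4 : |(s * (f (s * y) - f y - -(θ * s * y) * deriv f y)) / θ| ≤ M * θ := by
      rw [abs_div, abs_of_pos hθ, div_le_iff₀ hθ, abs_mul, abs_of_pos hs0]
      have h5 : (-(θ * s * y)) ^ 2 ≤ θ ^ 2 := by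
        have h6 : |s * y| ≤ 1 := by
          rw [abs_mul, abs_of_pos hs0]
          exact mul_le_one₀ hs2 (abs_nonneg _) hy1
        have h7 : (s * y) ^ 2 ≤ 1 := by
          rw [← sq_abs]; exact pow_le_one₀ (abs_nonneg _) h6
        calc (-(θ * s * y)) ^ 2 = θ ^ 2 * (s * y) ^ 2 := by ring
          _ ≤ θ ^ 2 * 1 := mul_le_mul_of_nonneg_left h7 (by positivity)
          _ = θ ^ 2 := by ring
      calc s * |f (s * y) - f y - -(θ * s * y) * deriv f y| ≤ 1 * (M * (-(θ * s * y)) ^ 2) :=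
            mul_le_mul hs2 h3 (abs_nonneg _) (by norm_num)
        _ ≤ 1 * (M * θ ^ 2) := by
            apply mul_le_mul_of_nonneg_left _ (by norm_num)
            exact mul_le_mul_of_nonneg_left h5 hM0
        _ = M * θ * θ := by ring
    have h6 : |(1 - s) * f y| ≤ θ * M := by
      rw [abs_mul]
      apply mul_le_mul _ (hM y) (abs_nonneg _) hθ.le
      rw [abs_of_nonneg (by linarith)]
      nlinarith
    have h7 : |(1 - s ^ 2) * (y * deriv f y)| ≤ 2 * θ * M := by
      rw [abs_mul]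
      apply mul_le_mul _ _ (abs_nonneg _) (by linarith)
      · rw [abs_of_nonneg (by nlinarith)]
        nlinarith
      · rw [abs_mul]
        calc |y| * |deriv f y| ≤ 1 * M := mul_le_mul hy1 (hM' y) (abs_nonneg _) (by norm_num)
          _ = M := one_mul _
    calc |(s * (f (s * y) - f y - -(θ * s * y) * deriv f y)) / θ + (1 - s) * f y + (1 - s ^ 2) * (y * deriv f y)|
        ≤ |(s * (f (s * y) - f y - -(θ * s * y) * deriv f y)) / θ| + |(1 - s) * f y| + |(1 - s ^ 2) * (y * deriv f y)| := abs_add_three _ _ _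
      _ ≤ M * θ + θ * M + 2 * θ * M := by linarith
      _ = 4 * M * θ := by ring
  · have h1 : f y = 0 := by
      apply h.2
      intro hc
      apply hy
      constructor <;> linarith [hc.1, hc.2]
    have h2 : deriv f y = 0 := by
      apply (LW2_S_deriv h).2
      intro hc
      apply hy
      constructor <;> linarith [hc.1, hc.2]
    rw [LW2_D_zero h _ θ y hθ hθ1 hy, h1, h2]
    simp
    positivity

/-- The commutator of the homothety and `b`. -/
theorem LW2_comm (S b : DD) (κ : ℝ → ℝ) (hκ : ∀ x, x ∉ Set.Icc (42 / 100 : ℝ) (48 / 100) → κ x = 0) (β θ : ℝ) (hθ : 0 < θ)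
    (hS : ∀ y ∈ Set.Icc (1 / 5 : ℝ) (4 / 5), ev S y = (1 + θ) * y) (hb : Rep b (fun x => β / θ * κ x)) :
    Rep ⁅S, b⁆ (fun x => β * LW2_D κ (1 + θ) θ (ev b⁻¹ x)) := by
  intro x
  have h0 : (0 : ℝ) < 1 + θ := by linarith
  have hx : x = ev b (ev b⁻¹ x) := (ev_inv' b x).symm
  set y : ℝ := ev b⁻¹ x with hy
  have hx2 : x = y + β / θ * κ y := by rw [hx]; exact hb y
  have e1 : ev ⁅S, b⁆ x = ev S (ev b (ev S⁻¹ y)) := rfl
  rw [e1]
  set z : ℝ := ev S⁻¹ y with hz
  have hz2 : y = ev S z := (ev_inv' S y).symm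
  -- value
  have key : ev S (ev b z) = y + (1 + θ) * (β / θ) * κ (y / (1 + θ)) := by
    by_cases hzz : z ∈ Set.Icc (42 / 100 : ℝ) (48 / 100)
    · have h1 : y = (1 + θ) * z := by rw [hz2]; exact hS z ⟨by linarith [hzz.1], by linarith [hzz.2]⟩
      have h2 : y / (1 + θ) = z := by rw [h1]; field_simp
      have hb0 : ∀ w : ℝ, w ∉ Set.Icc (42 / 100 : ℝ) (48 / 100) → ev b w = w := by
        intro w hw
        rw [hb w]; simp only []; rw [hκ w hw]; ring
      have h3 : ev b z ∈ Set.Icc (1 / 5 : ℝ) (4 / 5) := by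
        constructor
        · calc (1 / 5 : ℝ) = ev b (1 / 5) := (hb0 _ (by intro hc; have := hc.1; norm_num at this)).symm
            _ ≤ ev b z := ev_mono b (by linarith [hzz.1])
        · calc ev b z ≤ ev b (4 / 5) := ev_mono b (by linarith [hzz.2])
            _ = 4 / 5 := hb0 _ (by intro hc; have := hc.2; norm_num at this)
      rw [hS _ h3, hb z, h2]
      simp only []
      rw [h1]; ring
    · have h1 : ev b z = z := by rw [hb z]; simp only []; rw [hκ z hzz]; ring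
      have h2 : κ (y / (1 + θ)) = 0 := by
        apply hκ
        intro hc
        apply hzz
        have h3 : ev S (y / (1 + θ)) = y := by
          rw [hS _ ⟨by linarith [hc.1], by linarith [hc.2]⟩]; field_simp
        have h4 : z = y / (1 + θ) := by
          rw [hz, ← h3, ev_inv, h3]
        rw [h4]; exact hc
      rw [h1, h2, ← hz2]; ring
  rw [key]
  show _ = x + β * LW2_D κ (1 + θ) θ y
  unfold LW2_D
  rw [hx2]
  field_simp
  ring

/-- **LW2**. -/
theorem LW2 (hSMA : SMA_stmt) (hDIF : DIF_stmt) (hBAS : BAS_stmt) (hSZC : SZC_stmt) : LW2_stmt := by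
  obtain ⟨κ, hκ1, hκ2, hκ3⟩ := LW2_kap
  refine ⟨κ, contDiff_infty.1 hκ1 5, hκ2, hκ3, ?_⟩
  intro A hA
  have s0 : LW2_S κ := ⟨hκ1, hκ2⟩
  have s1 := LW2_S_deriv s0
  have s2 := LW2_S_deriv s1
  have s3 := LW2_S_deriv s2
  have s4 := LW2_S_deriv s3
  obtain ⟨M0, hM0⟩ := LW2_S_bdd s0
  obtain ⟨M1, hM1⟩ := LW2_S_bdd s1
  obtain ⟨M2, hM2⟩ := LW2_S_bdd s2
  obtain ⟨M3, hM3⟩ := LW2_S_bdd s3
  obtain ⟨M4, hM4⟩ := LW2_S_bdd s4
  have hp0 : 0 ≤ M0 := (abs_nonneg _).trans (hM0 0)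
  have hp1 : 0 ≤ M1 := (abs_nonneg _).trans (hM1 0)
  have hp2 : 0 ≤ M2 := (abs_nonneg _).trans (hM2 0)
  have hp3 : 0 ≤ M3 := (abs_nonneg _).trans (hM3 0)
  have hp4 : 0 ≤ M4 := (abs_nonneg _).trans (hM4 0)
  obtain ⟨M, hM⟩ : ∃ M, M = 1 + M0 + M1 + M2 + M3 + M4 := ⟨_, rfl⟩
  have hMge : 1 ≤ M := by rw [hM]; linarith
  replace hM0 : ∀ x, |κ x| ≤ M := fun x => (hM0 x).trans (by rw [hM]; linarith)
  replace hM1 : ∀ x, |deriv κ x| ≤ M := fun x => (hM1 x).trans (by rw [hM]; linarith)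
  replace hM2 : ∀ x, |deriv (deriv κ) x| ≤ M := fun x => (hM2 x).trans (by rw [hM]; linarith)
  replace hM3 : ∀ x, |deriv (deriv (deriv κ)) x| ≤ M := fun x => (hM3 x).trans (by rw [hM]; linarith)
  replace hM4 : ∀ x, |deriv (deriv (deriv (deriv κ))) x| ≤ M := fun x => (hM4 x).trans (by rw [hM]; linarith)
  obtain ⟨C0, hC0, -, hSMA2⟩ := hSMA
  have hAM : 1 ≤ A * M := one_le_mul_of_one_le_of_one_le hA hMge
  have hAM2 : A * M ≤ (A * M) ^ 2 := by nlinarith
  have hAM3 : (1 : ℝ) ≤ (A * M) ^ 2 := hAM.trans hAM2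
  refine ⟨C0 + 1000 * (A * M) ^ 2, by nlinarith, ?_⟩
  intro β θ hθ hCθ hβ
  have hA0 : (0 : ℝ) ≤ A := by linarith
  have hMn : (0 : ℝ) ≤ M := by linarith
  have hC0θ : C0 * θ ≤ 1 := by nlinarith
  have hK : 1000 * (A * M) ^ 2 * θ ≤ 1 := by nlinarith
  have hK1 : 1000 * (A * M) * θ ≤ 1 := by nlinarith
  have hθ1 : θ ≤ 1 / 1000 := by nlinarith
  have hθ2 : θ ≤ 1 / 100 := by linarith
  have h0 : (0 : ℝ) < 1 + θ := by linarith
  -- the map b
  have hq : |β / θ| ≤ A * θ := by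
    rw [abs_div, abs_of_pos hθ, div_le_iff₀ hθ]
    calc |β| ≤ A * θ ^ 2 := hβ
      _ = A * θ * θ := by ring
  have hqM : ∀ t : ℝ, |t| ≤ M → |β / θ * t| ≤ A * M * θ := by
    intro t ht
    rw [abs_mul]
    calc |β / θ| * |t| ≤ A * θ * M := mul_le_mul hq ht (abs_nonneg _) (by positivity)
      _ = A * M * θ := by ring
  have hη : A * M * θ ≤ 1 / 1000 := by linarith
  have hη0 : 0 ≤ A * M * θ := by positivity
  set B : ℝ → ℝ := fun x => β / θ * κ x with hB
  have hBd : ∀ x, HasDerivAt B (β / θ * deriv κ x) x := fun x => (LW2_S_hd s0 x).const_mul _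
  have hBdd : ∀ x, HasDerivAt (fun x => β / θ * deriv κ x) (β / θ * deriv (deriv κ) x) x :=
    fun x => (LW2_S_hd s1 x).const_mul _
  have hB2 : ContDiff ℝ 2 B := contDiff_const.mul (contDiff_infty.1 hκ1 2)
  obtain ⟨b, hb⟩ := hDIF B hB2 (fun x hx => by
      show β / θ * κ x = 0
      rw [hκ2 x (fun hc => hx ⟨by linarith [hc.1], by linarith [hc.2]⟩), mul_zero]) (fun x => by
      rw [(hBd x).deriv]
      exact (hqM _ (hM1 x)).trans (by linarith))
  obtain ⟨S, hS1, hS2⟩ := hSMA2 θ (by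
    rw [abs_of_pos hθ, le_div_iff₀ (by linarith)]; linarith)
  rw [abs_of_pos hθ] at hS2
  -- φ
  set φ : ℝ → ℝ := ev b⁻¹ with hφ
  have hφb : ∀ x, φ x + B (φ x) = x := fun x => by
    rw [← hb (φ x)]; exact ev_inv' b x
  have hφC : ContDiff ℝ 2 φ := ev_contDiff b⁻¹
  have hB1 : ∀ x, |β / θ * deriv κ x| ≤ A * M * θ := fun x => hqM _ (hM1 x)
  have hBpos : ∀ x, 1 / 2 ≤ 1 + β / θ * deriv κ x := fun x => by
    have := abs_le.1 (hB1 x); linarith [this.1]
  set w : ℝ → ℝ := fun y => 1 / (1 + β / θ * deriv κ y) with hw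
  have hwpos : ∀ y, 0 < w y := fun y => by
    have := hBpos y
    show 0 < 1 / (1 + β / θ * deriv κ y)
    positivity
  have hw1 : ∀ y, w y * (1 + β / θ * deriv κ y) = 1 := fun y => by
    have := hBpos y
    show 1 / (1 + β / θ * deriv κ y) * (1 + β / θ * deriv κ y) = 1
    exact one_div_mul_cancel (by linarith)
  have hw2 : ∀ y, |w y| ≤ 2 := fun y => by
    rw [abs_of_pos (hwpos y)]
    nlinarith [hw1 y, hwpos y, hBpos y]
  have hwd : ∀ y, HasDerivAt w (-(β / θ * deriv (deriv κ) y) * w y ^ 2) y := by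
    intro y
    have h1 := (hBdd y).const_add 1
    have hne : (1 + β / θ * deriv κ y) ≠ 0 := by linarith [hBpos y]
    have h2 := h1.inv hne
    have e : -(β / θ * deriv (deriv κ) y) / (1 + β / θ * deriv κ y) ^ 2 = -(β / θ * deriv (deriv κ) y) * w y ^ 2 := by
      show _ = -(β / θ * deriv (deriv κ) y) * (1 / (1 + β / θ * deriv κ y)) ^ 2
      field_simp
    rw [e] at h2
    have e3 : w = (fun x => 1 + β / θ * deriv κ x)⁻¹ := by
      funext z
      show 1 / (1 + β / θ * deriv κ z) = (1 + β / θ * deriv κ z)⁻¹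
      rw [one_div]
    rwa [← e3] at h2
  have hφd : ∀ x, HasDerivAt φ (w (φ x)) x := by
    intro x
    have h1 : HasDerivAt φ (deriv φ x) x := (hφC.differentiable (by norm_num) x).hasDerivAt
    have h2 : HasDerivAt (fun x => φ x + B (φ x)) (deriv φ x + (β / θ * deriv κ (φ x)) * deriv φ x) x :=
      h1.add (HasDerivAt.comp (h₂ := B) (h := φ) x (hBd (φ x)) h1)
    have h3 : HasDerivAt (fun x => φ x + B (φ x)) 1 x := by
      have : (fun x => φ x + B (φ x)) = fun x => x := by funext x; exact hφb x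
      rw [this]; exact hasDerivAt_id x
    have h4 := h2.unique h3
    have h5 : deriv φ x = w (φ x) := by
      have h6 : deriv φ x * (1 + β / θ * deriv κ (φ x)) = 1 := by linarith
      have h7 : w (φ x) * (1 + β / θ * deriv κ (φ x)) = 1 := hw1 _
      have h8 : (1 + β / θ * deriv κ (φ x)) ≠ 0 := by linarith [hBpos (φ x)]
      exact mul_right_cancel₀ h8 (h6.trans h7.symm)
    rw [← h5]; exact h1
  -- the bounded Lipschitz class
  have blw : LW2_BL w 2 := by
    refine ⟨hw2, fun x y => LW2_lip hwd (fun z => ?_) x y⟩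
    rw [abs_mul, abs_neg]
    have h1 : |w z ^ 2| ≤ 4 := by
      rw [abs_pow]
      have := hw2 z
      nlinarith [abs_nonneg (w z)]
    calc |β / θ * deriv (deriv κ) z| * |w z ^ 2| ≤ (A * M * θ) * 4 :=
          mul_le_mul (hqM _ (hM2 z)) h1 (abs_nonneg _) hη0
      _ ≤ 2 := by linarith
  have c1 : |(1 : ℝ) - 1| ≤ 2 * θ := by rw [sub_self, abs_zero]; linarith
  have c0 : |(1 + θ : ℝ) - 1| ≤ 2 * θ := by rw [add_sub_cancel_left, abs_of_pos hθ]; linarith
  have hs1 : (1 / (1 + θ)) * (1 + θ) = 1 := by field_simp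
  have hsp : 0 < 1 / (1 + θ) := by positivity
  have hsl : 1 / (1 + θ) ≤ 1 := by rw [div_le_one h0]; linarith
  have c2 : |1 / (1 + θ) - 1| ≤ 2 * θ := by
    rw [abs_le]; constructor <;> nlinarith
  have c3 : |1 / (1 + θ) / (1 + θ) - 1| ≤ 2 * θ := by
    have e : 1 / (1 + θ) / (1 + θ) = (1 / (1 + θ)) ^ 2 := by field_simp
    rw [e, abs_le]; constructor <;> nlinarith
  have ec0 : (1 + θ) / (1 + θ) = 1 := by field_simp
  -- D0, D1, D2
  set D0 : ℝ → ℝ := LW2_D κ (1 + θ) θ with hD0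
  set D1 : ℝ → ℝ := LW2_D (deriv κ) 1 θ with hD1
  set D2 : ℝ → ℝ := LW2_D (deriv (deriv κ)) (1 / (1 + θ)) θ with hD2
  set D3 : ℝ → ℝ := LW2_D (deriv (deriv (deriv κ))) (1 / (1 + θ) / (1 + θ)) θ with hD3
  have d0 : ∀ y, HasDerivAt D0 (D1 y) y := fun y => by
    have := LW2_D_hd s0 (1 + θ) θ y
    rw [ec0] at this; exact this
  have d1 : ∀ y, HasDerivAt D1 (D2 y) y := fun y => LW2_D_hd s1 1 θ y
  have d2' : ∀ y, HasDerivAt D2 (D3 y) y := fun y => LW2_D_hd s2 (1 / (1 + θ)) θ y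
  have b1 : ∀ y, |D1 y| ≤ 3 * M := LW2_D_bd s1 1 θ M hθ hθ2 c1 hM1 hM2
  have b2 : ∀ y, |D2 y| ≤ 3 * M := LW2_D_bd s2 _ θ M hθ hθ2 c2 hM2 hM3
  have b3 : ∀ y, |D3 y| ≤ 3 * M := LW2_D_bd s3 _ θ M hθ hθ2 c3 hM3 hM4
  have bl1 : LW2_BL D1 (3 * M) := ⟨b1, LW2_lip d1 b2⟩
  have bl2 : LW2_BL D2 (3 * M) := ⟨b2, LW2_lip d2' b3⟩
  have blB : LW2_BL (fun y => β / θ * deriv (deriv κ) y) (A * M * θ) := by
    refine ⟨fun y => hqM _ (hM2 y), LW2_lip (f' := fun y => β / θ * deriv (deriv (deriv κ)) y) (fun y => (LW2_S_hd s2 y).const_mul _) (fun y => hqM _ (hM3 y))⟩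
  have blw2 := LW2_BL_mul blw blw
  have blw3 := LW2_BL_mul blw2 blw
  have blH1 := LW2_BL_mul bl2 blw2
  have blH2 := LW2_BL_mul bl1 (LW2_BL_mul blB blw3)
  have blH := LW2_BL_mono (LW2_BL_sub blH1 blH2) (b := 60 * M) (by
    have h1 : A * M * θ * M ≤ M / 1000 := by nlinarith
    nlinarith)
  set H : ℝ → ℝ := fun y => D2 y * (w y * w y) - D1 y * ((β / θ * deriv (deriv κ) y) * (w y * w y * w y)) with hH
  have blH' : LW2_BL H (60 * M) := blH
  -- derivatives of E
  set E : ℝ → ℝ := fun x => β * D0 (φ x) with hE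
  have e1 : ∀ x, HasDerivAt E (β * (D1 (φ x) * w (φ x))) x := fun x =>
    (HasDerivAt.comp x (d0 (φ x)) (hφd x)).const_mul β
  have e2 : ∀ x, HasDerivAt (fun x => β * (D1 (φ x) * w (φ x))) (β * H (φ x)) x := by
    intro x
    have h1 := HasDerivAt.comp x (d1 (φ x)) (hφd x)
    have h2 := HasDerivAt.comp x (hwd (φ x)) (hφd x)
    have h3 := (h1.mul h2).const_mul β
    refine h3.congr_deriv ?_
    show β * ((D2 (φ x) * w (φ x)) * w (φ x) + D1 (φ x) * ((-(β / θ * deriv (deriv κ) (φ x)) * w (φ x) ^ 2) * w (φ x))) = β * H (φ x)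
    show _ = β * (D2 (φ x) * (w (φ x) * w (φ x)) - D1 (φ x) * ((β / θ * deriv (deriv κ) (φ x)) * (w (φ x) * w (φ x) * w (φ x))))
    ring
  have eE1 : deriv E = fun x => β * (D1 (φ x) * w (φ x)) := by funext x; exact (e1 x).deriv
  have eE2 : ∀ x, d2 E x = β * H (φ x) := by
    intro x
    unfold d2
    rw [eE1]; exact (e2 x).deriv
  have hφid : ∀ x, x ∉ Set.Icc (42 / 100 : ℝ) (48 / 100) → φ x = x := by
    intro x hx
    have h1 : ev b x = x := by
      rw [hb x]
      show x + β / θ * κ x = x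
      rw [hκ2 x hx]; ring
    show ev b⁻¹ x = x
    conv_lhs => rw [← h1]
    exact ev_inv b x
  have hφl : ∀ x y, |φ x - φ y| ≤ 2 * |x - y| := LW2_lip hφd (fun x => hw2 _)
  have hφx : ∀ x, |φ x - x| ≤ A * M * θ := by
    intro x
    have h1 := hφb x
    have h2 : φ x - x = - B (φ x) := by linarith
    rw [h2, abs_neg]
    exact hqM _ (hM0 _)
  have hβ2 : |β| * M ≤ A * M * θ ^ 2 := by nlinarith
  refine ⟨S, b, E, LW2_comm S b κ hκ2 β θ hθ hS1 hb, ⟨?_, ?_, ?_, ?_⟩, ?_, ?_, ?_⟩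
  · -- C2
    have h1 : ContDiff ℝ 2 D0 := by
      have hk2 : ContDiff ℝ 2 κ := contDiff_infty.1 hκ1 2
      show ContDiff ℝ 2 (fun y => ((1 + θ) * κ (y / (1 + θ)) - κ y) / θ)
      exact ((contDiff_const.mul (hk2.comp (contDiff_id.div_const _))).sub hk2).div_const _
    exact contDiff_const.mul (h1.comp hφC)
  · intro x hx
    show β * LW2_D κ (1 + θ) θ (φ x) = 0
    rw [hφid x (fun hc => hx ⟨by linarith [hc.1], by linarith [hc.2]⟩), LW2_D_zero s0 (1 + θ) θ x hθ hθ2 hx, mul_zero]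
  · intro x
    rw [eE2, abs_mul]
    calc |β| * |H (φ x)| ≤ |β| * (60 * M) := mul_le_mul_of_nonneg_left (blH'.1 _) (abs_nonneg _)
      _ = 60 * (|β| * M) := by ring
      _ ≤ 60 * (A * M * θ ^ 2) := by linarith
      _ ≤ (C0 + 1000 * (A * M) ^ 2) * θ ^ 2 := by
          have : 60 * (A * M) ≤ C0 + 1000 * (A * M) ^ 2 := by linarith
          nlinarith [sq_nonneg θ]
  · intro x y
    rw [eE2, eE2]
    have h1 : β * H (φ x) - β * H (φ y) = β * (H (φ x) - H (φ y)) := by ring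
    rw [h1, abs_mul]
    calc |β| * |H (φ x) - H (φ y)| ≤ |β| * (60 * M * (2 * |x - y|)) := by
          apply mul_le_mul_of_nonneg_left _ (abs_nonneg _)
          refine (blH'.2 _ _).trans ?_
          exact mul_le_mul_of_nonneg_left (hφl x y) (by linarith)
      _ = 120 * (|β| * M) * |x - y| := by ring
      _ ≤ 120 * (A * M * θ ^ 2) * |x - y| := by
          apply mul_le_mul_of_nonneg_right _ (abs_nonneg _)
          linarith
      _ ≤ (C0 + 1000 * (A * M) ^ 2) * θ ^ 2 * |x - y| := by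
          apply mul_le_mul_of_nonneg_right _ (abs_nonneg _)
          have : 120 * (A * M) ≤ C0 + 1000 * (A * M) ^ 2 := by linarith
          nlinarith [sq_nonneg θ]
  · intro x
    refine (hS2 x).trans ?_
    have : 0 ≤ 1000 * (A * M) ^ 2 * θ := by positivity
    linarith
  · intro x
    have h1 : ∀ z, ev b z = z + B z := hb
    have h2 : ∀ z, HasDerivAt (ev b) (1 + β / θ * deriv κ z) z := by
      intro z
      have : ev b = fun z => z + B z := by funext z; exact h1 z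
      rw [this]
      exact (hasDerivAt_id z).add (hBd z)
    have h3 : deriv (ev b) = fun z => 1 + β / θ * deriv κ z := by funext z; exact (h2 z).deriv
    have h4 : d2 (ev b) x = β / θ * deriv (deriv κ) x := by
      unfold d2
      rw [h3]
      exact ((hBdd x).const_add 1).deriv
    rw [h4]
    refine (hqM _ (hM2 x)).trans ?_
    have h5 : A * M ≤ C0 + 1000 * (A * M) ^ 2 := by linarith
    nlinarith
  · intro x
    have hK2 : d2 (fun y => κ y - y * deriv κ y) x = - deriv (deriv κ) x - x * deriv (deriv (deriv κ)) x := by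
      have h1 : ∀ z, HasDerivAt (fun y => κ y - y * deriv κ y) (- (z * deriv (deriv κ) z)) z := by
        intro z
        have := (LW2_S_hd s0 z).sub ((hasDerivAt_id z).mul (LW2_S_hd s1 z))
        refine this.congr_deriv ?_
        show deriv κ z - (1 * deriv κ z + z * deriv (deriv κ) z) = _
        ring
      have h2 : HasDerivAt (fun z => - (z * deriv (deriv κ) z)) (- (1 * deriv (deriv κ) x + x * deriv (deriv (deriv κ)) x)) x :=
        ((hasDerivAt_id x).mul (LW2_S_hd s2 x)).neg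
      have h3 : deriv (fun y => κ y - y * deriv κ y) = fun z => - (z * deriv (deriv κ) z) := by
        funext z; exact (h1 z).deriv
      unfold d2
      rw [h3, h2.deriv]; ring
    rw [eE2, hK2]
    have hlim := LW2_D_lim s2 θ M hθ hθ2 hM2 hM3 hM4
    have hHx : |H x - (- deriv (deriv κ) x - x * deriv (deriv (deriv κ)) x)| ≤ 50 * (A * M * M * θ) := by
      have h1 : |D2 x - (- deriv (deriv κ) x - x * deriv (deriv (deriv κ)) x)| ≤ 4 * M * θ := hlim x
      have hwm : |w x - 1| ≤ 2 * (A * M * θ) := by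
        have h2 : w x - 1 = - (w x * (β / θ * deriv κ x)) := by
          have := hw1 x; linarith
        rw [h2, abs_neg, abs_mul]
        exact mul_le_mul (hw2 x) (hB1 x) (abs_nonneg _) (by norm_num)
      have h3 : |D2 x * (w x * w x - 1)| ≤ 3 * M * (2 * (A * M * θ) * 3) := by
        rw [abs_mul]
        apply mul_le_mul (b2 x) _ (abs_nonneg _) (by linarith)
        have h4 : w x * w x - 1 = (w x - 1) * (w x + 1) := by ring
        rw [h4, abs_mul]
        apply mul_le_mul hwm _ (abs_nonneg _) (by positivity)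
        have := abs_le.1 (hw2 x)
        rw [abs_le]; constructor <;> linarith [this.1, this.2, hwpos x]
      have h5 : |D1 x * ((β / θ * deriv (deriv κ) x) * (w x * w x * w x))| ≤ 3 * M * (A * M * θ * 8) := by
        rw [abs_mul]
        apply mul_le_mul (b1 x) _ (abs_nonneg _) (by linarith)
        rw [abs_mul]
        apply mul_le_mul (hqM _ (hM2 x)) _ (abs_nonneg _) hη0
        rw [abs_mul, abs_mul]
        have := hw2 x
        have h6 : |w x| * |w x| ≤ 4 := by nlinarith [abs_nonneg (w x)]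
        nlinarith [abs_nonneg (w x)]
      have h7 : H x - (- deriv (deriv κ) x - x * deriv (deriv (deriv κ)) x)
          = D2 x * (w x * w x - 1) + (D2 x - (- deriv (deriv κ) x - x * deriv (deriv (deriv κ)) x))
            + -(D1 x * ((β / θ * deriv (deriv κ) x) * (w x * w x * w x))) := by
        show (D2 x * (w x * w x) - D1 x * ((β / θ * deriv (deriv κ) x) * (w x * w x * w x))) - _ = _
        ring
      rw [h7]
      refine (abs_add_three _ _ _).trans ?_
      rw [abs_neg]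
      have h8 : M * θ ≤ A * M * M * θ := by
        have : M ≤ A * M * M := by nlinarith
        nlinarith
      nlinarith
    have h9 : |H (φ x) - H x| ≤ 60 * M * (A * M * θ) := (blH'.2 _ _).trans (mul_le_mul_of_nonneg_left (hφx x) (by linarith))
    have h10 : β * H (φ x) - β * (- deriv (deriv κ) x - x * deriv (deriv (deriv κ)) x)
        = β * ((H (φ x) - H x) + (H x - (- deriv (deriv κ) x - x * deriv (deriv (deriv κ)) x))) := by ring
    rw [h10, abs_mul]
    have h11 : |(H (φ x) - H x) + (H x - (- deriv (deriv κ) x - x * deriv (deriv (deriv κ)) x))| ≤ 110 * (A * M * M * θ) := by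
      refine (abs_add_le _ _).trans ?_
      nlinarith
    calc |β| * |(H (φ x) - H x) + (H x - (- deriv (deriv κ) x - x * deriv (deriv (deriv κ)) x))|
        ≤ (A * θ ^ 2) * (110 * (A * M * M * θ)) := mul_le_mul hβ h11 (abs_nonneg _) (by positivity)
      _ = 110 * (A * M) ^ 2 * θ ^ 3 := by ring
      _ ≤ (C0 + 1000 * (A * M) ^ 2) * θ ^ 3 := by
          apply mul_le_mul_of_nonneg_right _ (by positivity)
          have : 0 ≤ (A * M) ^ 2 := by positivity
          linarith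

end Pool.Agent.helper64.D2
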